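import Pool.Agent.Helper8.SE.Sheet

/-!
SE, row STEPF: a smooth step of slope at most `1 + κ`.
-/

open scoped ContDiff
open Set Filter Topology

namespace Pool.Agent.Helper8.SE

namespace Stepf13

/-- the derivative, up to a constant -/
noncomputable def b (ρ u : ℝ) : ℝ :=
  Real.smoothTransition (u / ρ) * Real.smoothTransition ((1 - u) / ρ)

theorem b_smooth (ρ : ℝ) : ContDiff ℝ ∞ (b ρ) := by
  unfold b
  exact (Real.smoothTransition.contDiff.comp (contDiff_id.div_const ρ)).mul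
    (Real.smoothTransition.contDiff.comp ((contDiff_const.sub contDiff_id).div_const ρ))

theorem b_nonneg (ρ u : ℝ) : 0 ≤ b ρ u :=
  mul_nonneg (Real.smoothTransition.nonneg _) (Real.smoothTransition.nonneg _)

theorem b_le (ρ u : ℝ) : b ρ u ≤ 1 :=
  mul_le_one₀ (Real.smoothTransition.le_one _) (Real.smoothTransition.nonneg _)
    (Real.smoothTransition.le_one _)

theorem b_zero {ρ : ℝ} (hρ : 0 < ρ) {u : ℝ} (hu : u ≤ 0) : b ρ u = 0 := by
  unfold b
  rw [Real.smoothTransition.zero_of_nonpos (div_nonpos_of_nonpos_of_nonneg hu hρ.le), zero_mul]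

theorem b_zero' {ρ : ℝ} (hρ : 0 < ρ) {u : ℝ} (hu : 1 ≤ u) : b ρ u = 0 := by
  unfold b
  rw [Real.smoothTransition.zero_of_nonpos (x := (1 - u) / ρ)
    (div_nonpos_of_nonpos_of_nonneg (by linarith) hρ.le), mul_zero]

theorem b_one {ρ : ℝ} (hρ : 0 < ρ) {u : ℝ} (h1 : ρ ≤ u) (h2 : u ≤ 1 - ρ) : b ρ u = 1 := by
  unfold b
  rw [Real.smoothTransition.one_of_one_le ((one_le_div hρ).2 h1),
    Real.smoothTransition.one_of_one_le ((one_le_div hρ).2 (by linarith)), mul_one]

theorem b_int (ρ x y : ℝ) : IntervalIntegrable (b ρ) MeasureTheory.volume x y :=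
  (b_smooth ρ).continuous.intervalIntegrable x y

theorem I_ge {ρ : ℝ} (hρ : 0 < ρ) (hρ2 : 2 * ρ < 1) : 1 - 2 * ρ ≤ ∫ t in (0 : ℝ)..1, b ρ t := by
  have e1 : ∫ t in (0 : ℝ)..1, b ρ t = (∫ t in (0 : ℝ)..ρ, b ρ t) +
      ((∫ t in ρ..(1 - ρ), b ρ t) + ∫ t in (1 - ρ)..1, b ρ t) := by
    rw [intervalIntegral.integral_add_adjacent_intervals (b_int ρ _ _) (b_int ρ _ _),
      intervalIntegral.integral_add_adjacent_intervals (b_int ρ _ _) (b_int ρ _ _)]
  have e2 : ∫ t in ρ..(1 - ρ), b ρ t = 1 - 2 * ρ := by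
    have h : ∫ t in ρ..(1 - ρ), b ρ t = ∫ t in ρ..(1 - ρ), (1 : ℝ) := by
      refine intervalIntegral.integral_congr fun t ht => ?_
      rw [uIcc_of_le (by linarith)] at ht
      exact b_one hρ ht.1 ht.2
    rw [h, intervalIntegral.integral_const, smul_eq_mul]
    ring
  have h1 : 0 ≤ ∫ t in (0 : ℝ)..ρ, b ρ t :=
    intervalIntegral.integral_nonneg hρ.le fun t _ => b_nonneg ρ t
  have h2 : 0 ≤ ∫ t in (1 - ρ)..1, b ρ t :=
    intervalIntegral.integral_nonneg (by linarith) fun t _ => b_nonneg ρ t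
  rw [e1, e2]
  linarith

end Stepf13

open Stepf13 in
theorem stSTEPF : ST_STEPF := by
  intro κ hκ
  obtain ⟨ρ, hρd⟩ : ∃ ρ : ℝ, ρ = κ / (2 * (1 + κ)) := ⟨_, rfl⟩
  have hκ1 : 0 < 1 + κ := by linarith
  have hρ : 0 < ρ := by rw [hρd]; positivity
  have hρe : 1 - 2 * ρ = 1 / (1 + κ) := by
    rw [hρd]
    field_simp
    ring
  have hρ2 : 2 * ρ < 1 := by
    have : 0 < 1 / (1 + κ) := by positivity
    linarith
  obtain ⟨I, hI⟩ : ∃ I : ℝ, I = ∫ t in (0 : ℝ)..1, b ρ t := ⟨_, rfl⟩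
  have hI1 : 1 / (1 + κ) ≤ I := by
    rw [hI, ← hρe]
    exact I_ge hρ hρ2
  have hI0 : 0 < I := lt_of_lt_of_le (by positivity) hI1
  have hIinv : 1 / I ≤ 1 + κ := by
    rw [div_le_iff₀ hI0]
    rw [div_le_iff₀ hκ1] at hI1
    linarith
  let S : ℝ → ℝ := fun u => (∫ t in (0 : ℝ)..u, b ρ t) / I
  have hbc : Continuous (b ρ) := (b_smooth ρ).continuous
  have hS : ∀ u, HasDerivAt S (b ρ u / I) u := by
    intro u
    exact (intervalIntegral.integral_hasDerivAt_right (b_int ρ 0 u)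
      (hbc.stronglyMeasurableAtFilter _ _) hbc.continuousAt).div_const I
  have hSd : Differentiable ℝ S := fun u => (hS u).differentiableAt
  have hSderiv : deriv S = fun u => b ρ u / I := funext fun u => (hS u).deriv
  have hmono : Monotone S := by
    refine monotone_of_deriv_nonneg hSd fun u => ?_
    rw [hSderiv]
    exact div_nonneg (b_nonneg ρ u) hI0.le
  have hz : ∀ u ≤ 0, S u = 0 := by
    intro u hu
    have h : ∫ t in (0 : ℝ)..u, b ρ t = ∫ t in (0 : ℝ)..u, (0 : ℝ) := by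
      refine intervalIntegral.integral_congr fun t ht => ?_
      rw [uIcc_of_ge hu] at ht
      exact b_zero hρ ht.2
    change (∫ t in (0 : ℝ)..u, b ρ t) / I = 0
    rw [h]
    simp
  have ho : ∀ u, 1 ≤ u → S u = 1 := by
    intro u hu
    have h : ∫ t in (1 : ℝ)..u, b ρ t = ∫ t in (1 : ℝ)..u, (0 : ℝ) := by
      refine intervalIntegral.integral_congr fun t ht => ?_
      rw [uIcc_of_le hu] at ht
      exact b_zero' hρ ht.1
    have h2 : ∫ t in (0 : ℝ)..u, b ρ t = I + ∫ t in (1 : ℝ)..u, b ρ t := by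
      rw [hI, intervalIntegral.integral_add_adjacent_intervals (b_int ρ _ _) (b_int ρ _ _)]
    change (∫ t in (0 : ℝ)..u, b ρ t) / I = 1
    rw [h2, h]
    simp [hI0.ne']
  refine ⟨S, ?_, hmono, ?_, ?_, hz, ho, ?_⟩
  · rw [contDiff_infty_iff_deriv]
    refine ⟨hSd, ?_⟩
    rw [hSderiv]
    exact (b_smooth ρ).div_const I
  · intro u
    have h := hmono (min_le_left u 0)
    rw [hz _ (min_le_right u 0)] at h
    exact h
  · intro u
    have h := hmono (le_max_left u 1)
    rw [ho _ (le_max_right u 1)] at h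
    exact h
  · intro u v
    have h := Convex.norm_image_sub_le_of_norm_deriv_le (f := S) (C := 1 + κ) (s := univ)
      (x := v) (y := u) (fun x _ => hSd x) (fun x _ => by
        rw [hSderiv, Real.norm_eq_abs, abs_of_nonneg (div_nonneg (b_nonneg ρ x) hI0.le)]
        refine le_trans ?_ hIinv
        exact div_le_div_of_nonneg_right (b_le ρ x) hI0.le) convex_univ (mem_univ _) (mem_univ _)
    rwa [Real.norm_eq_abs, Real.norm_eq_abs] at h

end Pool.Agent.Helper8.SE
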